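import Pool.Agent.R846.VS.C

/-! # Small values of a sequence with the normal law -/

set_option autoImplicit false

namespace Pool.Agent.R846.VD

open Filter Topology MeasureTheory Complex ProbabilityTheory
open Pool.Agent.R846.VS (ph trig_poly gn gn_char ph_pos ph_le)

/-- `((1 + cos y) / 2) ^ r` has small normal mean -/
lemma mean_small {ρ : ℝ} (hρ : 0 < ρ) : ∃ r : ℕ, ∫ y, ((1 + Real.cos y) / 2) ^ r ∂gn ≤ ρ := by
  have h1 : Tendsto (fun r : ℕ => ∫ y, ((1 + Real.cos y) / 2) ^ r ∂gn) atTop (𝓝 (∫ _ : ℝ, (0 : ℝ) ∂gn)) := by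
    refine tendsto_integral_of_dominated_convergence (fun _ => (1 : ℝ)) (fun r => by fun_prop)
      (integrable_const _) (fun r => Eventually.of_forall fun y => ?_) ?_
    · have h2 := Real.neg_one_le_cos y
      have h3 := Real.cos_le_one y
      rw [Real.norm_of_nonneg (pow_nonneg (by linarith) _)]
      exact pow_le_one₀ (by linarith) (by linarith)
    · have hnull : gn {y : ℝ | Real.cos y = 1} = 0 := by
        have hc : {y : ℝ | Real.cos y = 1}.Countable := by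
          have : {y : ℝ | Real.cos y = 1} ⊆ Set.range fun n : ℤ => (n : ℝ) * (2 * Real.pi) := by
            intro y hy
            obtain ⟨n, hn⟩ := (Real.cos_eq_one_iff y).1 hy
            exact ⟨n, hn⟩
          exact (Set.countable_range _).mono this
        have : (volume : Measure ℝ) {y : ℝ | Real.cos y = 1} = 0 := hc.measure_zero _
        exact (gaussianReal_absolutelyContinuous 0 (one_ne_zero : (1 : NNReal) ≠ 0)) this
      filter_upwards [measure_eq_zero_iff_ae_notMem.1 hnull] with y hy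
      have h2 := Real.neg_one_le_cos y
      have h3 := lt_of_le_of_ne (Real.cos_le_one y) hy
      exact tendsto_pow_atTop_nhds_zero_of_lt_one (by linarith) (by linarith)
  rw [integral_zero] at h1
  exact (h1.eventually_le_const hρ).exists

/-- **a sequence of numbers with the normal law has few small terms** -/
theorem small {ρ : ℝ} (hρ : 0 < ρ) : ∃ (r : ℕ) (δ ε₀ : ℝ), 0 < δ ∧ 0 < ε₀ ∧ ∀ K : ℕ, 1 ≤ K →
    ∀ x : ℕ → ℝ, (∀ u ∈ Finset.range (r + 1), ∀ v ∈ Finset.range (r + 1),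
      ‖(1 / K : ℂ) * ∑ k ∈ Finset.range K, cexp (I * ((((u : ℝ) - v) * x k : ℝ) : ℂ)) -
        (ph ((u : ℝ) - v) : ℂ)‖ ≤ ε₀) →
    (((Finset.range K).filter fun k => |x k| ≤ δ).card : ℝ) ≤ ρ * K := by
  obtain ⟨r, hr⟩ := mean_small (show 0 < ρ / 4 by positivity)
  obtain ⟨δ, hδ, hδ1⟩ : ∃ δ : ℝ, 0 < δ ∧ ∀ y : ℝ, |y| ≤ δ → 1 / 2 ≤ ((1 + Real.cos y) / 2) ^ r := by
    have hc : Continuous fun y : ℝ => ((1 + Real.cos y) / 2) ^ r := by fun_prop
    have h0 : (fun y : ℝ => ((1 + Real.cos y) / 2) ^ r) 0 = 1 := by simp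
    have h1 := (hc.tendsto 0).eventually_const_le (show (1 / 2 : ℝ) < (fun y : ℝ => ((1 + Real.cos y) / 2) ^ r) 0 by
      rw [h0]; norm_num)
    obtain ⟨s, hs, hs1⟩ := Metric.eventually_nhds_iff.1 h1
    refine ⟨s / 2, by positivity, fun y hy => hs1 ?_⟩
    rw [Real.dist_eq, sub_zero]
    linarith
  refine ⟨r, δ, ρ / 4, hδ, by positivity, fun K hK x hx => ?_⟩
  have hK0 : (0 : ℝ) < K := by exact_mod_cast hK
  have hKc : (K : ℂ) ≠ 0 := by exact_mod_cast hK0.ne'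
  -- the expansion
  have hexp : ∀ y : ℝ, ((((1 + Real.cos y) / 2) ^ r : ℝ) : ℂ) = (1 / 4 : ℂ) ^ r *
      ∑ u ∈ Finset.range (r + 1), ∑ v ∈ Finset.range (r + 1),
      (((-1 : ℂ) ^ u * (r.choose u : ℂ)) * ((-1 : ℂ) ^ v * (r.choose v : ℂ)) *
        cexp (I * ((((u : ℝ) - v) * Real.pi : ℝ) : ℂ))) * cexp (I * ((((u : ℝ) - v) * y : ℝ) : ℂ)) := by
    intro y
    have h1 : ((1 + Real.cos y) / 2) ^ r = (1 / 2) ^ r * (1 - Real.cos (y + Real.pi)) ^ r := by
      rw [Real.cos_add_pi, ← mul_pow]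
      congr 1
      ring
    rw [h1, Complex.ofReal_mul, trig_poly]
    have h2 : ((((1 / 2 : ℝ) ^ r : ℝ)) : ℂ) * (1 / 2 : ℂ) ^ r = (1 / 4 : ℂ) ^ r := by
      push_cast
      rw [← mul_pow]
      norm_num
    rw [← mul_assoc, h2]
    congr 1
    refine Finset.sum_congr rfl fun u _ => Finset.sum_congr rfl fun v _ => ?_
    rw [mul_assoc _ (cexp _) (cexp _), ← Complex.exp_add]
    congr 2
    push_cast
    ring
  have hco : ∀ u v : ℕ, ‖((-1 : ℂ) ^ u * (r.choose u : ℂ)) * ((-1 : ℂ) ^ v * (r.choose v : ℂ)) *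
        cexp (I * ((((u : ℝ) - v) * Real.pi : ℝ) : ℂ))‖ = (r.choose u : ℝ) * (r.choose v : ℝ) := by
    intro u v
    rw [norm_mul, norm_mul, norm_mul, norm_mul, norm_pow, norm_pow, norm_neg, norm_one, one_pow, one_pow,
      Complex.norm_natCast, Complex.norm_natCast, one_mul, one_mul, mul_comm I,
      Complex.norm_exp_ofReal_mul_I, mul_one]
  have hG2 : ((∫ y, ((1 + Real.cos y) / 2) ^ r ∂gn : ℝ) : ℂ) = (1 / 4 : ℂ) ^ r *
      ∑ u ∈ Finset.range (r + 1), ∑ v ∈ Finset.range (r + 1),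
      (((-1 : ℂ) ^ u * (r.choose u : ℂ)) * ((-1 : ℂ) ^ v * (r.choose v : ℂ)) *
        cexp (I * ((((u : ℝ) - v) * Real.pi : ℝ) : ℂ))) * (ph ((u : ℝ) - v) : ℂ) := by
    have e0 : ((∫ y, ((1 + Real.cos y) / 2) ^ r ∂gn : ℝ) : ℂ) =
        ∫ y, ((((1 + Real.cos y) / 2) ^ r : ℝ) : ℂ) ∂gn := (integral_ofReal (𝕜 := ℂ)).symm
    rw [e0]
    simp only [hexp]
    have hi : ∀ ζ : ℝ, Integrable (fun y : ℝ => cexp (I * ((ζ * y : ℝ) : ℂ))) gn := by
      intro ζ
      refine Integrable.of_bound (C := 1) (by fun_prop) (Eventually.of_forall fun y => ?_)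
      rw [mul_comm, Complex.norm_exp_ofReal_mul_I]
    rw [integral_const_mul, integral_finsetSum _ fun u _ => integrable_finsetSum _ fun v _ =>
      (hi _).const_mul _]
    congr 1
    refine Finset.sum_congr rfl fun u _ => ?_
    rw [integral_finsetSum _ fun v _ => (hi _).const_mul _]
    refine Finset.sum_congr rfl fun v _ => ?_
    rw [integral_const_mul, gn_char]
  have hE1 : (((1 / K : ℝ) * ∑ k ∈ Finset.range K, ((1 + Real.cos (x k)) / 2) ^ r : ℝ) : ℂ) =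
      (1 / 4 : ℂ) ^ r * ∑ u ∈ Finset.range (r + 1), ∑ v ∈ Finset.range (r + 1),
      (((-1 : ℂ) ^ u * (r.choose u : ℂ)) * ((-1 : ℂ) ^ v * (r.choose v : ℂ)) *
        cexp (I * ((((u : ℝ) - v) * Real.pi : ℝ) : ℂ))) *
        ((1 / K : ℂ) * ∑ k ∈ Finset.range K, cexp (I * ((((u : ℝ) - v) * x k : ℝ) : ℂ))) := by
    rw [Complex.ofReal_mul, Complex.ofReal_sum]
    simp only [hexp]
    rw [← Finset.mul_sum, Finset.sum_comm]
    simp only [Finset.mul_sum]
    refine Finset.sum_congr rfl fun u _ => ?_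
    rw [Finset.sum_comm]
    refine Finset.sum_congr rfl fun v _ => ?_
    refine Finset.sum_congr rfl fun k _ => ?_
    push_cast
    ring
  have hdiff : |(1 / K : ℝ) * ∑ k ∈ Finset.range K, ((1 + Real.cos (x k)) / 2) ^ r -
      ∫ y, ((1 + Real.cos y) / 2) ^ r ∂gn| ≤ ρ / 4 := by
    have e1 : |(1 / K : ℝ) * ∑ k ∈ Finset.range K, ((1 + Real.cos (x k)) / 2) ^ r -
        ∫ y, ((1 + Real.cos y) / 2) ^ r ∂gn| =
        ‖(((1 / K : ℝ) * ∑ k ∈ Finset.range K, ((1 + Real.cos (x k)) / 2) ^ r : ℝ) : ℂ) -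
        ((∫ y, ((1 + Real.cos y) / 2) ^ r ∂gn : ℝ) : ℂ)‖ := by
      rw [← Complex.ofReal_sub, Complex.norm_real, Real.norm_eq_abs]
    rw [e1, hE1, hG2, ← mul_sub, ← Finset.sum_sub_distrib]
    simp only [← Finset.sum_sub_distrib, ← mul_sub]
    rw [norm_mul]
    have e2 : ‖(1 / 4 : ℂ) ^ r‖ = (1 / 4 : ℝ) ^ r := by
      rw [norm_pow]; norm_num
    rw [e2]
    have e4 : ‖∑ u ∈ Finset.range (r + 1), ∑ v ∈ Finset.range (r + 1),
        (((-1 : ℂ) ^ u * (r.choose u : ℂ)) * ((-1 : ℂ) ^ v * (r.choose v : ℂ)) *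
        cexp (I * ((((u : ℝ) - v) * Real.pi : ℝ) : ℂ))) *
        ((1 / K : ℂ) * ∑ k ∈ Finset.range K, cexp (I * ((((u : ℝ) - v) * x k : ℝ) : ℂ)) -
          (ph ((u : ℝ) - v) : ℂ))‖ ≤
        ∑ u ∈ Finset.range (r + 1), ∑ v ∈ Finset.range (r + 1),
          ((r.choose u : ℝ) * (r.choose v : ℝ)) * (ρ / 4) := by
      refine (norm_sum_le _ _).trans (Finset.sum_le_sum fun u hu => ?_)
      refine (norm_sum_le _ _).trans (Finset.sum_le_sum fun v hv => ?_)
      rw [norm_mul, hco]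
      exact mul_le_mul_of_nonneg_left (hx u hu v hv) (by positivity)
    have e5 : ∑ u ∈ Finset.range (r + 1), ∑ v ∈ Finset.range (r + 1),
          ((r.choose u : ℝ) * (r.choose v : ℝ)) * (ρ / 4) = 2 ^ r * 2 ^ r * (ρ / 4) := by
      simp only [← Finset.sum_mul, ← Finset.mul_sum]
      have e6 : ∑ u ∈ Finset.range (r + 1), (r.choose u : ℝ) = 2 ^ r := by
        have := Nat.sum_range_choose r
        exact_mod_cast this
      rw [e6]
    calc (1 / 4 : ℝ) ^ r * _ ≤ (1 / 4 : ℝ) ^ r * (2 ^ r * 2 ^ r * (ρ / 4)) := by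
          rw [← e5]
          exact mul_le_mul_of_nonneg_left e4 (by positivity)
      _ = ρ / 4 := by
        rw [← mul_pow, ← mul_assoc, ← mul_pow]
        norm_num
  have hlow : 1 / 2 * (((Finset.range K).filter fun k => |x k| ≤ δ).card : ℝ) ≤
      ∑ k ∈ Finset.range K, ((1 + Real.cos (x k)) / 2) ^ r := by
    calc 1 / 2 * (((Finset.range K).filter fun k => |x k| ≤ δ).card : ℝ)
        = ∑ k ∈ (Finset.range K).filter fun k => |x k| ≤ δ, (1 / 2 : ℝ) := by
          rw [Finset.sum_const, nsmul_eq_mul]; ring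
      _ ≤ ∑ k ∈ (Finset.range K).filter fun k => |x k| ≤ δ, ((1 + Real.cos (x k)) / 2) ^ r :=
          Finset.sum_le_sum fun k hk => hδ1 _ (Finset.mem_filter.1 hk).2
      _ ≤ _ := Finset.sum_le_sum_of_subset_of_nonneg (Finset.filter_subset _ _) fun k _ _ =>
          pow_nonneg (by linarith [Real.neg_one_le_cos (x k)]) _
  have h9 := (abs_le.mp hdiff).2
  have h10 : (1 / K : ℝ) * ∑ k ∈ Finset.range K, ((1 + Real.cos (x k)) / 2) ^ r ≤ ρ / 2 := by linarith
  rw [one_div, inv_mul_le_iff₀ hK0] at h10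
  linarith

end Pool.Agent.R846.VD
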