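import Pool.Agent.R846.VD.A

/-! # Sets of heights with values near a space at a positive proportion of the places -/

set_option autoImplicit false

namespace Pool.Agent.R846.VD

open Filter Topology MeasureTheory Complex
open Pool.Agent.R846.VS (ph net sel ph_pos ph_le)

/-- a linear relation between the coefficient vectors with indices in `I` -/
lemma relI (κ : ℕ) (I : Finset ℕ) (hI : κ < I.card) (α : ℕ → Fin κ → ℝ) : ∃ c : ℕ → ℝ,
    (∀ i, i ∉ I → c i = 0) ∧ ∑ i ∈ I, c i ^ 2 = 1 ∧ ∀ l, ∑ i ∈ I, c i * α i l = 0 := by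
  classical
  set L : (I → ℝ) →ₗ[ℝ] (Fin κ → ℝ) := Fintype.linearCombination ℝ fun i : I => α i with hL
  have hker : LinearMap.ker L ≠ ⊥ := by
    apply LinearMap.ker_ne_bot_of_finrank_lt
    rw [Module.finrank_fin_fun, Module.finrank_fintype_fun_eq_card, Fintype.card_coe]
    exact hI
  obtain ⟨b, hb, hb0⟩ := (Submodule.ne_bot_iff _).mp hker
  rw [LinearMap.mem_ker] at hb
  have hpos : 0 < ∑ i, b i ^ 2 := by
    obtain ⟨i, hi⟩ := Function.ne_iff.mp hb0
    refine Finset.sum_pos' (fun i _ => sq_nonneg _) ⟨i, Finset.mem_univ i, ?_⟩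
    have : b i ≠ 0 := hi
    positivity
  obtain ⟨q, hq⟩ : ∃ q : ℝ, q = Real.sqrt (∑ i, b i ^ 2) := ⟨_, rfl⟩
  have hq0 : 0 < q := by rw [hq]; exact Real.sqrt_pos.2 hpos
  have hq2 : q ^ 2 = ∑ i, b i ^ 2 := by rw [hq]; exact Real.sq_sqrt hpos.le
  have hsum : ∀ F : ℕ → ℝ → ℝ, ∑ i ∈ I, F i (if h : i ∈ I then b ⟨i, h⟩ / q else 0) =
      ∑ i : I, F i (b i / q) := by
    intro F
    rw [← Finset.sum_coe_sort I]
    refine Finset.sum_congr rfl fun i _ => ?_
    rw [dif_pos i.2]
  refine ⟨fun i => if h : i ∈ I then b ⟨i, h⟩ / q else 0, fun i hi => dif_neg hi, ?_, fun l => ?_⟩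
  · rw [hsum (fun _ x => x ^ 2)]
    simp only [div_pow]
    rw [← Finset.sum_div, hq2, div_self hpos.ne']
  · rw [hsum (fun i x => x * α i l)]
    have e1 : ∀ i : I, b i / q * α i l = (b i * α i l) / q := fun i => by ring
    simp only [e1]
    rw [← Finset.sum_div]
    have e2 : ∑ i : I, b i * α i l = 0 := by
      have h1 := congrFun hb l
      rw [hL, Fintype.linearCombination_apply] at h1
      simpa [Finset.sum_apply, smul_eq_mul] using h1
    rw [e2, zero_div]

/-- **density version of the core** -/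
theorem core_d (κ : ℕ) {ρ : ℝ} (hρ : 0 < ρ) : ∃ ε₁ θ₁ : ℝ, 0 < ε₁ ∧ 0 < θ₁ ∧ ∀ Q η : ℝ, 0 < Q → 0 < η →
    ∃ (Ξ : Finset ℝ) (ε σ : ℝ), 0 < ε ∧ 0 < σ ∧ ∀ (K : ℕ), 1 ≤ K → ∀ T : ℝ, 0 < T → ∀ Z : ℕ → ℝ → ℝ,
    (∀ ξ ∈ Ξ, ∀ w : ℕ → ℂ, (∀ k, ‖w k‖ ≤ 1) → volume {t ∈ Set.Icc T (2 * T) |
      ε < ‖(1 / K : ℂ) * ∑ k ∈ Finset.range K, w k * (cexp (I * ((ξ * Z k t : ℝ) : ℂ)) - (ph ξ : ℂ))‖} ≤
      ENNReal.ofReal (σ * T)) →
    ∀ g : Fin κ → ℕ → ℝ, volume {t ∈ Set.Icc T (2 * T) |
      (((Finset.range K).filter fun k => Q < |Z k t|).card : ℝ) ≤ θ₁ * K ∧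
      ∃ α : Fin κ → ℝ, ρ * K ≤
        (((Finset.range K).filter fun k => |Z k t - ∑ l, α l * g l k| ≤ ε₁).card : ℝ)} ≤
      ENNReal.ofReal (η * T) := by
  classical
  obtain ⟨n, hn⟩ : ∃ n : ℕ, n = κ + 1 := ⟨_, rfl⟩
  have hn0 : (0 : ℝ) < n := by rw [hn]; positivity
  obtain ⟨N, hN⟩ := exists_nat_gt (2 * n / ρ)
  have hN0 : (0 : ℝ) < N := lt_of_le_of_lt (by positivity) hN
  rw [div_lt_iff₀ hρ] at hN
  obtain ⟨ρ₃, hρ₃⟩ : ∃ ρ₃ : ℝ, ρ₃ = n / (4 * N * 2 ^ N) := ⟨_, rfl⟩
  have hρ₃0 : 0 < ρ₃ := by rw [hρ₃]; positivity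
  obtain ⟨r, δ₀, ε₀, hδ₀, hε₀, hsmall⟩ := small hρ₃0
  refine ⟨δ₀ / (2 * n), n / (4 * N ^ 2), by positivity, by positivity, fun Q η hQ hη => ?_⟩
  obtain ⟨ε₁, hε₁⟩ : ∃ ε₁ : ℝ, ε₁ = δ₀ / (2 * n) := ⟨_, rfl⟩
  have hε₁0 : 0 < ε₁ := by rw [hε₁]; positivity
  rw [← hε₁]
  obtain ⟨μ, hμ⟩ : ∃ μ : ℝ, μ = δ₀ / (2 * N * Q) := ⟨_, rfl⟩
  have hμ0 : 0 < μ := by rw [hμ]; positivity
  obtain ⟨S, hS1, hS2⟩ := net N hμ0
  -- the frequency vectors
  set Θ : Finset (ℕ → ℝ) := ((Finset.range (r + 1) ×ˢ Finset.range (r + 1)) ×ˢ S).image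
    (fun q => fun i => ((q.1.1 : ℝ) - q.1.2) * q.2 i) with hΘ
  set Ξ : Finset ℝ := (Θ ×ˢ Finset.range N).image (fun q => q.1 q.2) with hΞ
  obtain ⟨σ, hσ⟩ : ∃ σ : ℝ, σ = η / (Θ.card + 1) := ⟨_, rfl⟩
  have hσ0 : 0 < σ := by rw [hσ]; positivity
  refine ⟨Ξ, ε₀ / N, σ, by positivity, hσ0, fun K hK T hT Z h g => ?_⟩
  have hK0 : (0 : ℝ) < K := by exact_mod_cast hK
  by_contra hcon
  rw [not_le] at hcon
  set B := {t ∈ Set.Icc T (2 * T) |
      (((Finset.range K).filter fun k => Q < |Z k t|).card : ℝ) ≤ n / (4 * N ^ 2) * K ∧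
      ∃ α : Fin κ → ℝ, ρ * K ≤
        (((Finset.range K).filter fun k => |Z k t - ∑ l, α l * g l k| ≤ ε₁).card : ℝ)} with hB
  obtain ⟨s, hs1, hs2⟩ := sel Z (K := K) (ε := ε₀ / N) (σ := σ) (η := η) (by positivity) Θ N
    (fun θ hθ i hi w hw => h (θ i) (Finset.mem_image.2 ⟨(θ, i), Finset.mem_product.2
      ⟨hθ, Finset.mem_range.2 hi⟩, rfl⟩) w hw)
    (by
      rw [← ENNReal.ofReal_natCast, ← ENNReal.ofReal_mul (Nat.cast_nonneg _)]
      apply ENNReal.ofReal_le_ofReal
      rw [hσ, ← mul_assoc]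
      apply mul_le_mul_of_nonneg_right _ hT.le
      rw [mul_div_assoc', div_le_iff₀ (by positivity)]
      nlinarith)
    B (fun t ht => ht.1) hcon N le_rfl
  have hα : ∀ i : ℕ, ∃ α : Fin κ → ℝ, i < N → ρ * K ≤
        (((Finset.range K).filter fun k => |Z k (s i) - ∑ l, α l * g l k| ≤ ε₁).card : ℝ) := by
    intro i
    by_cases hi : i < N
    · obtain ⟨α, hα⟩ := (hs1 i hi).2.2
      exact ⟨α, fun _ => hα⟩
    · exact ⟨0, fun h => absurd h hi⟩
  choose α hα using hα
  set J : ℕ → Finset ℕ := fun i => (Finset.range K).filter fun k => |Z k (s i) - ∑ l, α i l * g l k| ≤ ε₁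
    with hJ
  -- the sums attached to a set `U₁`
  have hI : ∀ U₁ : Finset ℕ, ∃ x : ℕ → ℝ, U₁ ⊆ Finset.range N → U₁.card = n →
      (((Finset.range K).filter fun k => |x k| ≤ δ₀).card : ℝ) ≤ ρ₃ * K ∧
      ∀ k < K, (∀ i ∈ U₁, k ∈ J i) → (∀ i < N, |Z k (s i)| ≤ Q) → |x k| ≤ δ₀ := by
    intro U₁
    by_cases hIN : U₁ ⊆ Finset.range N ∧ U₁.card = n
    swap
    · exact ⟨0, fun h1 h2 => absurd ⟨h1, h2⟩ hIN⟩
    obtain ⟨hIN, hIc⟩ := hIN
    obtain ⟨c, hc0, hc1, hc2⟩ := relI κ U₁ (by omega) α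
    have hc1' : ∑ i ∈ Finset.range N, c i ^ 2 = 1 := by
      rw [← hc1]
      symm
      refine Finset.sum_subset hIN fun i _ hi => ?_
      rw [hc0 i hi]; norm_num
    obtain ⟨c', hc'S, hcc'⟩ := hS2 c hc1'
    have hc'1 := hS1 c' hc'S
    have hcle : ∀ i ∈ U₁, |c i| ≤ 1 := by
      intro i hi
      rw [← sq_le_one_iff_abs_le_one, ← hc1]
      exact Finset.single_le_sum (f := fun j => c j ^ 2) (fun j _ => sq_nonneg _) hi
    refine ⟨fun k => ∑ i ∈ Finset.range N, c' i * Z k (s i), fun _ _ => ⟨?_, ?_⟩⟩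
    · refine hsmall K hK _ fun u hu v hv => ?_
      have hθmem : (fun i => ((u : ℝ) - v) * c' i) ∈ Θ :=
        Finset.mem_image.2 ⟨((u, v), c'), Finset.mem_product.2 ⟨Finset.mem_product.2 ⟨hu, hv⟩, hc'S⟩, rfl⟩
      rcases hs2 _ hθmem with h1 | h1
      swap
      · omega
      have e1 : ∀ k, ∏ i ∈ Finset.range N, cexp (I * ((((u : ℝ) - v) * c' i * Z k (s i) : ℝ) : ℂ)) =
          cexp (I * ((((u : ℝ) - v) * (∑ i ∈ Finset.range N, c' i * Z k (s i)) : ℝ) : ℂ)) := by
        intro k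
        rw [← Complex.exp_sum]
        congr 1
        rw [← Finset.mul_sum]
        congr 1
        rw [← Complex.ofReal_sum]
        congr 1
        rw [Finset.mul_sum]
        refine Finset.sum_congr rfl fun i _ => ?_
        ring
      have e2 : ∏ i ∈ Finset.range N, (ph (((u : ℝ) - v) * c' i) : ℂ) = (ph ((u : ℝ) - v) : ℂ) := by
        rw [← Complex.ofReal_prod]
        congr 1
        unfold ph
        rw [← Real.exp_sum]
        congr 1
        have e3 : ∀ i ∈ Finset.range N, -((((u : ℝ) - v) * c' i) ^ 2) / 2 =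
            (-(((u : ℝ) - v) ^ 2) / 2) * c' i ^ 2 := fun i _ => by ring
        rw [Finset.sum_congr rfl e3, ← Finset.mul_sum, hc'1, mul_one]
      simp only [e1, e2] at h1
      refine h1.trans (le_of_eq ?_)
      field_simp
    · intro k hk hkI hQk
      have h1 : |∑ i ∈ Finset.range N, c i * Z k (s i)| ≤ δ₀ / 2 := by
        have e0 : ∑ i ∈ Finset.range N, c i * Z k (s i) = ∑ i ∈ U₁, c i * Z k (s i) := by
          symm
          refine Finset.sum_subset hIN fun i _ hi => ?_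
          rw [hc0 i hi, zero_mul]
        have e1 : ∑ i ∈ U₁, c i * Z k (s i) =
            ∑ i ∈ U₁, c i * (Z k (s i) - ∑ l, α i l * g l k) := by
          have e2 : ∑ i ∈ U₁, c i * ∑ l, α i l * g l k = 0 := by
            simp only [Finset.mul_sum]
            rw [Finset.sum_comm]
            refine Finset.sum_eq_zero fun l _ => ?_
            have e3 : ∀ i ∈ U₁, c i * (α i l * g l k) = (c i * α i l) * g l k := fun i _ => by ring
            rw [Finset.sum_congr rfl e3, ← Finset.sum_mul, hc2, zero_mul]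
          simp only [mul_sub, Finset.sum_sub_distrib, e2, sub_zero]
        rw [e0, e1]
        refine (Finset.abs_sum_le_sum_abs _ _).trans ?_
        calc _ ≤ ∑ i ∈ U₁, ε₁ := by
              refine Finset.sum_le_sum fun i hi => ?_
              rw [abs_mul]
              have h2 := (Finset.mem_filter.1 (hkI i hi)).2
              calc _ ≤ 1 * ε₁ := mul_le_mul (hcle i hi) h2 (abs_nonneg _) zero_le_one
                _ = ε₁ := one_mul _
          _ = δ₀ / 2 := by
              rw [Finset.sum_const, hIc, nsmul_eq_mul, hε₁]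
              field_simp
      have h3 : |∑ i ∈ Finset.range N, c' i * Z k (s i) - ∑ i ∈ Finset.range N, c i * Z k (s i)| ≤
          δ₀ / 2 := by
        rw [← Finset.sum_sub_distrib]
        refine (Finset.abs_sum_le_sum_abs _ _).trans ?_
        calc _ ≤ ∑ i ∈ Finset.range N, μ * Q := by
              refine Finset.sum_le_sum fun i hi => ?_
              rw [← sub_mul, abs_mul]
              have h4 := hcc' i (Finset.mem_range.1 hi)
              rw [abs_sub_comm] at h4
              exact mul_le_mul h4 (hQk i (Finset.mem_range.1 hi)) (abs_nonneg _) hμ0.le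
          _ = δ₀ / 2 := by
              rw [Finset.sum_const, Finset.card_range, nsmul_eq_mul, hμ]
              field_simp
      have h5 : ∑ i ∈ Finset.range N, c' i * Z k (s i) =
          (∑ i ∈ Finset.range N, c' i * Z k (s i) - ∑ i ∈ Finset.range N, c i * Z k (s i)) +
          ∑ i ∈ Finset.range N, c i * Z k (s i) := by ring
      show |∑ i ∈ Finset.range N, c' i * Z k (s i)| ≤ δ₀
      rw [h5]
      exact (abs_add_le _ _).trans (by linarith)
  choose x hx using hI
  -- counting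
  set m : ℕ → ℕ := fun k => ((Finset.range N).filter fun i => k ∈ J i).card with hm
  set A := (Finset.range K).filter fun k => n ≤ m k with hA
  have hdouble : ∑ k ∈ Finset.range K, m k = ∑ i ∈ Finset.range N, (J i).card := by
    have e1 : ∀ k ∈ Finset.range K, m k = ∑ i ∈ Finset.range N, if k ∈ J i then 1 else 0 := by
      intro k _
      rw [hm]
      simp only [Finset.card_filter]
    rw [Finset.sum_congr rfl e1, Finset.sum_comm]
    refine Finset.sum_congr rfl fun i _ => ?_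
    rw [← Finset.card_filter]
    congr 1
    ext k
    rw [Finset.mem_filter]
    constructor
    · exact fun h => h.2
    · exact fun h => ⟨(Finset.mem_filter.1 h).1, h⟩
  have hlow : 2 * n * (K : ℝ) ≤ ((∑ k ∈ Finset.range K, m k : ℕ) : ℝ) := by
    rw [hdouble]
    push_cast
    calc 2 * n * (K : ℝ) ≤ (N * ρ) * K := mul_le_mul_of_nonneg_right hN.le hK0.le
      _ = ∑ i ∈ Finset.range N, ρ * K := by rw [Finset.sum_const, Finset.card_range, nsmul_eq_mul]; ring
      _ ≤ _ := Finset.sum_le_sum fun i hi => hα i (Finset.mem_range.1 hi)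
  have hup : ((∑ k ∈ Finset.range K, m k : ℕ) : ℝ) ≤ N * A.card + n * K := by
    have e1 : ∀ k ∈ Finset.range K, m k ≤ (if n ≤ m k then N else 0) + n := by
      intro k _
      split_ifs with h1
      · have : m k ≤ N := by
          rw [hm]
          exact (Finset.card_filter_le _ _).trans (by rw [Finset.card_range])
        omega
      · omega
    have e2 := Finset.sum_le_sum e1
    rw [Finset.sum_add_distrib, ← Finset.sum_filter, Finset.sum_const, Finset.sum_const,
      Finset.card_range, smul_eq_mul, smul_eq_mul] at e2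
    have e3 : ((∑ k ∈ Finset.range K, m k : ℕ) : ℝ) ≤ ((A.card * N + K * n : ℕ) : ℝ) := by
      exact_mod_cast e2
    rw [Nat.cast_add, Nat.cast_mul, Nat.cast_mul] at e3
    linarith
  have hAlow : n * K ≤ N * (A.card : ℝ) := by linarith
  have hAup : A ⊆ ((Finset.range N).powersetCard n).biUnion
      (fun U₁ => (Finset.range K).filter fun k => |x U₁ k| ≤ δ₀) ∪
      (Finset.range N).biUnion fun i => (Finset.range K).filter fun k => Q < |Z k (s i)| := by
    intro k hk
    obtain ⟨h1, h2⟩ := Finset.mem_filter.1 hk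
    by_cases hQk : ∀ i < N, |Z k (s i)| ≤ Q
    · apply Finset.mem_union_left
      obtain ⟨U₁, hI1, hI2⟩ := Finset.exists_subset_card_eq h2
      have hIN : U₁ ⊆ Finset.range N := hI1.trans (Finset.filter_subset _ _)
      rw [Finset.mem_biUnion]
      refine ⟨U₁, Finset.mem_powersetCard.2 ⟨hIN, hI2⟩, Finset.mem_filter.2 ⟨h1, ?_⟩⟩
      exact (hx U₁ hIN hI2).2 k (Finset.mem_range.1 h1) (fun i hi => (Finset.mem_filter.1 (hI1 hi)).2) hQk
    · apply Finset.mem_union_right
      push Not at hQk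
      obtain ⟨i, hi, hiQ⟩ := hQk
      rw [Finset.mem_biUnion]
      exact ⟨i, Finset.mem_range.2 hi, Finset.mem_filter.2 ⟨h1, hiQ⟩⟩
  have hcard : (A.card : ℝ) ≤ 2 ^ N * (ρ₃ * K) + N * (n / (4 * N ^ 2) * K) := by
    have h1 := (Finset.card_le_card hAup).trans (Finset.card_union_le _ _)
    have h2 : ((((Finset.range N).powersetCard n).biUnion
      (fun U₁ => (Finset.range K).filter fun k => |x U₁ k| ≤ δ₀)).card : ℝ) ≤ 2 ^ N * (ρ₃ * K) := by
      have h3 := Finset.card_biUnion_le (s := (Finset.range N).powersetCard n)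
        (t := fun U₁ => (Finset.range K).filter fun k => |x U₁ k| ≤ δ₀)
      calc _ ≤ ((∑ U₁ ∈ (Finset.range N).powersetCard n,
            ((Finset.range K).filter fun k => |x U₁ k| ≤ δ₀).card : ℕ) : ℝ) := by exact_mod_cast h3
        _ = ∑ U₁ ∈ (Finset.range N).powersetCard n,
            (((Finset.range K).filter fun k => |x U₁ k| ≤ δ₀).card : ℝ) := by push_cast; rfl
        _ ≤ ∑ U₁ ∈ (Finset.range N).powersetCard n, ρ₃ * K := by
            refine Finset.sum_le_sum fun U₁ hI => ?_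
            obtain ⟨g1, g2⟩ := Finset.mem_powersetCard.1 hI
            exact (hx U₁ g1 g2).1
        _ = (N.choose n : ℝ) * (ρ₃ * K) := by
            rw [Finset.sum_const, Finset.card_powersetCard, Finset.card_range, nsmul_eq_mul]
        _ ≤ 2 ^ N * (ρ₃ * K) := by
            apply mul_le_mul_of_nonneg_right _ (by positivity)
            exact_mod_cast Nat.choose_le_two_pow N n
    have h3 : (((Finset.range N).biUnion fun i =>
        (Finset.range K).filter fun k => Q < |Z k (s i)|).card : ℝ) ≤ N * (n / (4 * N ^ 2) * K) := by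
      have h4 := Finset.card_biUnion_le (s := Finset.range N)
        (t := fun i => (Finset.range K).filter fun k => Q < |Z k (s i)|)
      calc _ ≤ ((∑ i ∈ Finset.range N,
            ((Finset.range K).filter fun k => Q < |Z k (s i)|).card : ℕ) : ℝ) := by exact_mod_cast h4
        _ = ∑ i ∈ Finset.range N,
            (((Finset.range K).filter fun k => Q < |Z k (s i)|).card : ℝ) := by push_cast; rfl
        _ ≤ ∑ i ∈ Finset.range N, (n : ℝ) / (4 * N ^ 2) * K :=
            Finset.sum_le_sum fun i hi => (hs1 i (Finset.mem_range.1 hi)).2.1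
        _ = _ := by rw [Finset.sum_const, Finset.card_range, nsmul_eq_mul]
    have h5 : (A.card : ℝ) ≤ ((((Finset.range N).powersetCard n).biUnion
      (fun U₁ => (Finset.range K).filter fun k => |x U₁ k| ≤ δ₀)).card : ℝ) +
      (((Finset.range N).biUnion fun i =>
        (Finset.range K).filter fun k => Q < |Z k (s i)|).card : ℝ) := by exact_mod_cast h1
    linarith
  have hfin : N * (A.card : ℝ) ≤ n * K / 2 := by
    calc N * (A.card : ℝ) ≤ N * (2 ^ N * (ρ₃ * K) + N * (n / (4 * N ^ 2) * K)) :=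
          mul_le_mul_of_nonneg_left hcard hN0.le
      _ = n * K / 2 := by
          rw [hρ₃]
          field_simp
          ring
  have : 0 < (n : ℝ) * K := by positivity
  linarith

end Pool.Agent.R846.VD
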