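import Pool.Agent.R846.VD.C
import Pool.Agent.R846.VS.H

/-! # Pairs of places at a given distance -/

set_option autoImplicit false

namespace Pool.Agent.R846.VD

open Filter Topology MeasureTheory
open Pool.Agent.Y743.CL (Zv Zv_meas)
open Pool.Agent.Y743.NC (dev dev_int dev_nonneg)
open Pool.Agent.R321.QA (hs)
open Pool.Agent.R846.VS (mom dev_meas dev_zero cheb union_bd edge pos1 Dd Dd_Zv Zv_dev' law_vol ph count_le)
open SG (NZ ord ord_le_iff)

/-- one pair of places -/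
lemma det1 {κ : ℕ} {T t e R δ ε₁ : ℝ} {a S x : ℕ} (ha : 1 ≤ Real.log a) (hT : 0 < Real.log T)
    (hδ : δ * Real.log T ≤ ε₁ / 2 * Real.sqrt (Real.log a))
    (he : 26 * e ≤ ε₁ * Real.sqrt (Real.log a)) (he0 : 0 < e) (hR : 0 ≤ R) (hS : 1 + R + 2 * e ≤ S * e)
    (h2 : dev T x (t + 0) ≤ R ^ 2)
    (h3 : ∀ s ∈ Finset.Icc (-(S : ℤ)) S, dev T |(s : ℝ) * e| (t + hs (min (x : ℝ) (x + s * e)) T) ≤ e ^ 2)
    (h2' : dev T ((x + a : ℕ) : ℝ) (t + 0) ≤ R ^ 2)
    (h3' : ∀ s ∈ Finset.Icc (-(S : ℤ)) S,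
      dev T |(s : ℝ) * e| (t + hs (min ((x + a : ℕ) : ℝ) ((x + a : ℕ) + s * e)) T) ≤ e ^ 2)
    (v : Fin κ → ℕ → ℝ) (c : Fin κ → ℝ)
    (d1 : |ord (NZ t + 1 + x) - ∑ i, c i * v i x| ≤ δ)
    (d2 : |ord (NZ t + 1 + (x + a)) - ∑ i, c i * v i (x + a)| ≤ δ) :
    |Zv a T (t + hs x T) - ∑ l, (Fin.cons (-(Real.pi * a / Real.sqrt (Real.log a)))
      (fun i => Real.pi / Real.sqrt (Real.log a) * (c i * (Real.log T / (2 * Real.pi)))) :
        Fin (κ + 1) → ℝ) l *
      (Fin.cons (fun _ => 1) (fun i y => v i (y + a) - v i y) : Fin (κ + 1) → ℕ → ℝ) l x| ≤ ε₁ := by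
  have hpi := Real.pi_pos
  have hs1 : 1 ≤ Real.sqrt (Real.log a) := Real.one_le_sqrt.2 ha
  have hs0 : 0 < Real.sqrt (Real.log a) := by linarith
  set r := Real.sqrt (Real.log a) with hr
  set ℓ := Real.log T / (2 * Real.pi) with hℓ
  have hℓ0 : 0 < ℓ := by positivity
  rw [Fin.sum_univ_succ]
  simp only [Fin.cons_zero, Fin.cons_succ, mul_one]
  have g1 := pos1 (x := x) hT he0 hR hS h2 h3
  have g2 := pos1 (x := x + a) hT he0 hR hS h2' h3'
  have hZ := Dd_Zv (a := a) (by linarith) T t (x : ℝ)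
  rw [← hr] at hZ
  push_cast at g1 g2
  set z := Zv a T (t + hs (x : ℝ) T) with hz
  set o1 := ord (NZ t + 1 + x) with ho1
  set o2 := ord (NZ t + 1 + (x + a)) with ho2
  set D1 := Dd T t (x : ℝ) with hD1
  set D2 := Dd T t ((x : ℝ) + a) with hD2
  set V := ∑ i, c i * (v i (x + a) - v i x) with hV
  have hV1 : V = ∑ i, c i * v i (x + a) - ∑ i, c i * v i x := by
    rw [hV, ← Finset.sum_sub_distrib]
    exact Finset.sum_congr rfl fun i _ => by ring
  have hsum : ∑ i, Real.pi / r * (c i * ℓ) * (v i (x + a) - v i x) = Real.pi / r * (ℓ * V) := by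
    rw [hV, Finset.mul_sum, Finset.mul_sum]
    exact Finset.sum_congr rfl fun i _ => by ring
  rw [hsum]
  have hδℓ : δ * ℓ * (2 * Real.pi) ≤ ε₁ / 2 * r := by
    have e1 : δ * ℓ * (2 * Real.pi) = δ * Real.log T := by
      rw [hℓ]; field_simp
    rw [e1]
    exact hδ
  -- the ordinates
  have f1 : |(o2 - o1) * ℓ - a - r / Real.pi * z| ≤ 4 * e := by
    have e1 : (o2 - o1) * ℓ - a - r / Real.pi * z =
        ((o2 - t) * ℓ - ((x : ℝ) + a + 1) + D2) - ((o1 - t) * ℓ - ((x : ℝ) + 1) + D1) := by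
      have : D2 = D1 - r / Real.pi * z := by linarith
      rw [this]; ring
    rw [e1]
    refine (abs_sub _ _).trans ?_
    linarith
  have f2 : |(o2 - o1) * ℓ - ℓ * V| ≤ 2 * δ * ℓ := by
    have e1 : (o2 - o1) * ℓ - ℓ * V = ((o2 - ∑ i, c i * v i (x + a)) -
        (o1 - ∑ i, c i * v i x)) * ℓ := by rw [hV1]; ring
    rw [e1, abs_mul, abs_of_pos hℓ0]
    apply mul_le_mul_of_nonneg_right _ hℓ0.le
    refine (abs_sub _ _).trans ?_
    linarith
  have e2 : z - (-(Real.pi * a / r) + Real.pi / r * (ℓ * V)) =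
      Real.pi / r * ((((o2 - o1) * ℓ - ℓ * V)) - ((o2 - o1) * ℓ - a - r / Real.pi * z)) := by
    field_simp
    ring
  rw [e2, abs_mul, abs_of_pos (by positivity)]
  have f3 : |((o2 - o1) * ℓ - ℓ * V) - ((o2 - o1) * ℓ - a - r / Real.pi * z)| ≤ 2 * δ * ℓ + 4 * e :=
    (abs_sub _ _).trans (add_le_add f2 f1)
  calc _ ≤ Real.pi / r * (2 * δ * ℓ + 4 * e) := mul_le_mul_of_nonneg_left f3 (by positivity)
    _ = (δ * ℓ * (2 * Real.pi) + 4 * Real.pi * e) / r := by ring
    _ ≤ (ε₁ / 2 * r + ε₁ / 2 * r) / r := by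
        apply div_le_div_of_nonneg_right _ hs0.le
        have h5 : 4 * Real.pi * e ≤ ε₁ / 2 * r := by
          have := Real.pi_lt_d2
          have h6 : 4 * Real.pi ≤ 13 := by linarith
          calc 4 * Real.pi * e ≤ 13 * e := mul_le_mul_of_nonneg_right h6 he0.le
            _ ≤ ε₁ / 2 * r := by linarith
        linarith
    _ = ε₁ := by field_simp; ring

/-- **pairs of places at a given distance** -/
theorem pair (κ : ℕ) {ρ : ℝ} (hρ : 0 < ρ) : ∃ ε₂ : ℝ, 0 < ε₂ ∧ ∀ (Sb : ℕ) (η : ℝ), 1 ≤ Sb → 0 < η →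
    ∃ K : ℕ, 1 ≤ K ∧ ∃ L₀ : ℕ, ∀ L : ℕ, L₀ ≤ L → ∀ T : ℝ, 1 ≤ T → (L : ℝ) * Real.log L ≤ 2 * Real.log T →
    ∀ x₀ a b : ℕ, L ≤ Sb * (K * b) → 2 * (K * b) ≤ a → x₀ + K * b + a ≤ L → ∀ v : Fin κ → ℕ → ℝ,
    volume {t ∈ Set.Icc T (2 * T) | ∃ c : Fin κ → ℝ, ρ * K ≤ (((Finset.range K).filter fun k =>
      |ord (NZ t + 1 + (x₀ + k * b)) - ∑ i, c i * v i (x₀ + k * b)| ≤
        ε₂ * Real.sqrt (Real.log L) / Real.log T ∧
      |ord (NZ t + 1 + (x₀ + k * b + a)) - ∑ i, c i * v i (x₀ + k * b + a)| ≤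
        ε₂ * Real.sqrt (Real.log L) / Real.log T).card : ℝ)} ≤ ENNReal.ofReal (η * T) := by
  classical
  obtain ⟨C, R₀, hC, hexc⟩ := exc3
  obtain ⟨ε₁, θ, hε₁, hθ, hcore⟩ := core_d (κ + 1) hρ
  refine ⟨ε₁ / 4, by positivity, fun Sb η hSb hη => ?_⟩
  set Q := Real.sqrt (320 / (θ * η)) with hQ
  have hQ0 : 0 < Q := Real.sqrt_pos.2 (by positivity)
  have hQ2 : Q ^ 2 = 320 / (θ * η) := Real.sq_sqrt (by positivity)
  obtain ⟨Ξ, ε, σ, hε, hσ, hc⟩ := hcore Q (η / 4) hQ0 (by positivity)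
  obtain ⟨K0, hK0⟩ := law_vol 2 (by norm_num) Ξ hε (show 0 < σ / 2 by positivity)
  set K := max K0 1 with hK
  have hK1 : 1 ≤ K := le_max_right _ _
  have hKr : (1 : ℝ) ≤ K := by exact_mod_cast hK1
  have hSbr : (1 : ℝ) ≤ Sb := by exact_mod_cast hSb
  obtain ⟨R1, hR1, hlaw⟩ := hK0 K (le_max_left _ _) (1 / Sb) (by positivity)
  set Q₂ := Real.sqrt (64 * K / η) with hQ₂
  have hQ₂0 : 0 < Q₂ := Real.sqrt_pos.2 (by positivity)
  have hQ₂2 : Q₂ ^ 2 = 64 * K / η := Real.sq_sqrt (by positivity)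
  set S := ⌈26 * (1 + 2 * Q₂) / ε₁⌉₊ + 2 with hS
  have hSQ : 26 * (1 + 2 * Q₂) / ε₁ + 2 ≤ S := by
    rw [hS]; push_cast
    linarith [Nat.le_ceil (26 * (1 + 2 * Q₂) / ε₁)]
  have hS0 : (0 : ℝ) ≤ S := Nat.cast_nonneg S
  set r₀ := 4 * K * (2 * S + 1) * (S * ε₁ / 26 + C) * 5408 / (η * ε₁ ^ 2) + 1 with hr₀
  have hr₀0 : 1 ≤ r₀ := by
    rw [hr₀]
    have : 0 ≤ 4 * K * (2 * S + 1) * (S * ε₁ / 26 + C) * 5408 / (η * ε₁ ^ 2) := by positivity
    linarith
  set A₀ := Real.exp (2 * (r₀ ^ 2 + (S * ε₁ / 26) ^ 2) + C + 4) + |R₀| + Sb * R1 + Sb ^ 2 + 224 / η +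
    28 / σ + 3 with hA₀
  refine ⟨K, hK1, ⌈A₀⌉₊, fun L hL T hT hLT x₀ a b hLb hba hxL v => ?_⟩
  have hLA : A₀ ≤ L := (Nat.le_ceil A₀).trans (by exact_mod_cast hL)
  have hexp0 := Real.exp_pos (2 * (r₀ ^ 2 + (S * ε₁ / 26) ^ 2) + C + 4)
  have h224' : 0 ≤ 224 / η := by positivity
  have h28' : 0 ≤ 28 / σ := by positivity
  have hR₀' := abs_nonneg R₀
  have hSR : 0 ≤ Sb * R1 := by positivity
  have hSb2 : (0 : ℝ) ≤ (Sb : ℝ) ^ 2 := by positivity
  have hLR₀ : R₀ ≤ L := by linarith [le_abs_self R₀]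
  have hLR1 : Sb * R1 ≤ L := by linarith
  have hLSb : (Sb : ℝ) ^ 2 ≤ L := by linarith
  have hL224 : 224 / η ≤ L := by linarith
  have hL28 : 28 / σ ≤ L := by linarith
  have hL3 : (3 : ℝ) ≤ L := by linarith
  have hL0 : (0 : ℝ) < L := by linarith
  have hlogA : 2 * (r₀ ^ 2 + (S * ε₁ / 26) ^ 2) + C + 4 ≤ Real.log L := by
    rw [Real.le_log_iff_exp_le hL0]
    linarith
  -- the distance `a`
  have haL : a ≤ L := by omega
  have haLr : (a : ℝ) ≤ L := by exact_mod_cast haL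
  have hLa : 2 * L ≤ Sb * a := by
    calc 2 * L ≤ 2 * (Sb * (K * b)) := Nat.mul_le_mul_left _ hLb
      _ = Sb * (2 * (K * b)) := by ring
      _ ≤ Sb * a := Nat.mul_le_mul_left _ hba
  have hLar : 2 * (L : ℝ) ≤ Sb * a := by exact_mod_cast hLa
  have ha0 : (0 : ℝ) < a := by
    by_contra hcon
    have : (Sb : ℝ) * a ≤ 0 := mul_nonpos_of_nonneg_of_nonpos (by linarith) (not_lt.1 hcon)
    linarith
  have ha1 : 1 ≤ a := by exact_mod_cast ha0
  have hLa2 : (L : ℝ) ≤ (a : ℝ) ^ 2 := by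
    have h1 : (2 * (L : ℝ)) * (2 * L) ≤ (Sb * a) * (Sb * a) :=
      mul_le_mul hLar hLar (by linarith) (by positivity)
    have h2 : (Sb : ℝ) ^ 2 * L ≤ (Sb : ℝ) ^ 2 * (a : ℝ) ^ 2 := by
      have h3 : (Sb : ℝ) ^ 2 * L ≤ L * L := mul_le_mul_of_nonneg_right hLSb hL0.le
      have h4 : (2 * (L : ℝ)) * (2 * L) = 4 * (L * L) := by ring
      have h5 : (Sb * (a : ℝ)) * (Sb * a) = (Sb : ℝ) ^ 2 * (a : ℝ) ^ 2 := by ring
      have h6 : 0 ≤ (L : ℝ) * L := by positivity
      linarith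
    exact le_of_mul_le_mul_left h2 (by positivity)
  have hloga : Real.log L ≤ 2 * Real.log a := by
    calc Real.log L ≤ Real.log ((a : ℝ) ^ 2) := Real.log_le_log hL0 hLa2
      _ = 2 * Real.log a := by rw [Real.log_pow]; norm_num
  have hq1 := sq_nonneg r₀
  have hq2 := sq_nonneg (S * ε₁ / 26)
  have hla1 : 1 ≤ Real.log a := by linarith
  set r := Real.sqrt (Real.log a) with hr
  have hr2 : r ^ 2 = Real.log a := Real.sq_sqrt (by linarith)
  have hr1 : 1 ≤ r := Real.one_le_sqrt.2 hla1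
  have hrr₀ : r₀ ≤ r := Real.le_sqrt_of_sq_le (by linarith)
  have hrS : S * ε₁ / 26 ≤ r := Real.le_sqrt_of_sq_le (by linarith)
  have hlogLr : Real.sqrt (Real.log L) ≤ 2 * r := by
    calc Real.sqrt (Real.log L) ≤ Real.sqrt (2 ^ 2 * Real.log a) := Real.sqrt_le_sqrt (by linarith)
      _ = 2 * r := by rw [Real.sqrt_mul (by norm_num), Real.sqrt_sq (by norm_num)]
  set e := ε₁ * r / 26 with he
  have he0 : 0 < e := by rw [he]; positivity
  have hra : r ^ 2 ≤ a := by
    rw [hr2]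
    linarith [Real.log_le_sub_one_of_pos ha0]
  have hSe : (S : ℝ) * e ≤ L := by
    have h1 : (S : ℝ) * e = (S * ε₁ / 26) * r := by rw [he]; ring
    have h2 : (S * ε₁ / 26) * r ≤ r * r := mul_le_mul_of_nonneg_right hrS (by linarith)
    have h3 : r * r = r ^ 2 := by ring
    linarith
  have hlog1 : Real.log (1 + 2 * L) + C ≤ 2 * Real.log L := by
    have h1 : Real.log (1 + 2 * L) ≤ Real.log 3 + Real.log L := by
      rw [← Real.log_mul (by norm_num) (by linarith)]
      exact Real.log_le_log (by linarith) (by linarith)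
    have h2 : Real.log 3 ≤ 2 := by
      have := Real.log_le_sub_one_of_pos (by norm_num : (0 : ℝ) < 3)
      linarith
    linarith
  have hT0 : 0 < T := by linarith
  have hlogL1 : 1 ≤ Real.log L := by linarith
  have hLlogT : (L : ℝ) ≤ Real.log T := by
    have : (L : ℝ) * 2 ≤ L * Real.log L := mul_le_mul_of_nonneg_left (by linarith) hL0.le
    linarith
  have hLT0 : 0 < Real.log T := by linarith
  have hTL : (L : ℝ) ≤ T := by
    have := Real.log_le_sub_one_of_pos hT0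
    linarith
  have haT : (a : ℝ) * Real.log a ≤ 2 * Real.log T := by
    refine le_trans ?_ hLT
    exact mul_le_mul haLr (Real.log_le_log ha0 haLr) (by linarith) (by linarith)
  set H := 160 * K * Real.log L / (η * Real.pi ^ 2) with hH
  set xs : ℕ → ℕ := fun k => x₀ + k * b with hxs
  set P : Finset ℕ := (Finset.range K).image xs ∪ (Finset.range K).image (fun k => xs k + a) with hP
  have hPc : P.card ≤ 4 * K := by
    refine (Finset.card_union_le _ _).trans ?_
    have h1 : ((Finset.range K).image xs).card ≤ K := by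
      simpa using Finset.card_image_le (s := Finset.range K) (f := xs)
    have h2 : ((Finset.range K).image (fun k => xs k + a)).card ≤ K := by
      simpa using Finset.card_image_le (s := Finset.range K) (f := fun k => xs k + a)
    omega
  have hxsle : ∀ k < K, xs k + a ≤ L := by
    intro k hk
    have : k * b ≤ K * b := Nat.mul_le_mul_right _ hk.le
    simp only [hxs]
    omega
  have hPle : ∀ x ∈ P, x ≤ L := by
    intro x hx
    rcases Finset.mem_union.1 hx with h | h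
    · obtain ⟨k, hk, rfl⟩ := Finset.mem_image.1 h
      have := hxsle k (Finset.mem_range.1 hk)
      omega
    · obtain ⟨k, hk, rfl⟩ := Finset.mem_image.1 h
      exact hxsle k (Finset.mem_range.1 hk)
  have hRS : 1 + Q₂ * Real.sqrt (Real.log L) + 2 * e ≤ S * e := by
    have h1 : (26 * (1 + 2 * Q₂) / ε₁ + 2) * e ≤ S * e := mul_le_mul_of_nonneg_right hSQ he0.le
    have h3 : (26 * (1 + 2 * Q₂) / ε₁ + 2) * e = (1 + 2 * Q₂) * r + 2 * e := by
      rw [he]; field_simp
    have h4 : Q₂ * Real.sqrt (Real.log L) ≤ Q₂ * (2 * r) := mul_le_mul_of_nonneg_left hlogLr hQ₂0.le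
    have h5 : (1 + 2 * Q₂) * r = r + Q₂ * (2 * r) := by ring
    linarith
  have hbad := hexc P K xs a L S T (Q₂ * Real.sqrt (Real.log L)) e H η hPc hPle
    (fun k hk => by have := hxsle k hk; omega) hK1 hη hLR₀ hT hLT ha1 haL hSe hlog1 he0 rfl
    (by rw [mul_pow, hQ₂2, Real.sq_sqrt (by linarith)]) (by
      have h1 : Real.log (1 + S * e) ≤ S * e := by
        have := Real.log_le_sub_one_of_pos (by positivity : 0 < 1 + (S : ℝ) * e)
        linarith
      have h2 : S * e + C ≤ (S * ε₁ / 26 + C) * r := by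
        have : C ≤ C * r := le_mul_of_one_le_right hC.le hr1
        have h3 : (S : ℝ) * e = S * ε₁ / 26 * r := by rw [he]; ring
        rw [h3]; linarith
      have h3 : 4 * K * (2 * S + 1) * (S * ε₁ / 26 + C) ≤ η * ε₁ ^ 2 * r / 5408 := by
        have h4 : 4 * K * (2 * S + 1) * (S * ε₁ / 26 + C) * 5408 / (η * ε₁ ^ 2) ≤ r := by linarith
        rw [div_le_iff₀ (by positivity)] at h4
        linarith
      calc 4 * K * (2 * S + 1) * (Real.log (1 + S * e) + C)
          ≤ 4 * K * (2 * S + 1) * ((S * ε₁ / 26 + C) * r) := by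
            apply mul_le_mul_of_nonneg_left (by linarith) (by positivity)
        _ = 4 * K * (2 * S + 1) * (S * ε₁ / 26 + C) * r := by ring
        _ ≤ η * ε₁ ^ 2 * r / 5408 * r := mul_le_mul_of_nonneg_right h3 (by linarith)
        _ = η / 8 * e ^ 2 := by rw [he]; ring) hL224
  -- the law
  have hba' : 2 * ((K : ℝ) * b) ≤ a := by exact_mod_cast hba
  have hLb' : (L : ℝ) ≤ Sb * (K * b) := by exact_mod_cast hLb
  set m : ℝ := K * b with hm
  have hkm : ∀ k : ℕ, (k : ℝ) * m / K = k * b := fun k => by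
    rw [hm]; field_simp
  have hR1a : R1 ≤ a := by
    have h1 : Sb * R1 ≤ Sb * (a : ℝ) := by linarith
    exact le_of_mul_le_mul_left h1 (by linarith)
  have hlaw' := hlaw a T m hR1a hT haT (by
    rw [one_div, inv_mul_le_iff₀ (by linarith)]
    linarith) (by linarith)
  simp only [hkm] at hlaw'
  have hh0 : 0 ≤ hs (x₀ : ℝ) T := by
    unfold hs; positivity
  have hh14 : hs (x₀ : ℝ) T ≤ 14 := by
    unfold hs
    rw [div_le_iff₀ hLT0]
    have h1 : (x₀ : ℝ) ≤ L := by exact_mod_cast (by omega : x₀ ≤ L)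
    have h2 := Real.pi_lt_four
    have h3 := Real.pi_pos
    have h4 : 2 * Real.pi * x₀ ≤ 8 * L := mul_le_mul (by linarith) h1 (Nat.cast_nonneg _) (by norm_num)
    linarith
  have hZlaw : ∀ ξ ∈ Ξ, ∀ w : ℕ → ℂ, (∀ k, ‖w k‖ ≤ 1) → volume {t ∈ Set.Icc T (2 * T) |
      ε < ‖(1 / K : ℂ) * ∑ k ∈ Finset.range K,
        w k * (Complex.exp (Complex.I * ((ξ * Zv a T (t + hs (xs k) T) : ℝ) : ℂ)) - (ph ξ : ℂ))‖} ≤
      ENNReal.ofReal (σ * T) := by
    intro ξ hξ w hw
    have h1 := hlaw' ξ hξ w hw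
    set E : Set ℝ := {t ∈ Set.Icc T (2 * T) | ε < ‖(1 / K : ℂ) * ∑ k ∈ Finset.range K,
      w k * (Complex.exp (Complex.I * ((ξ * Zv a T (t + hs (k * b) T) : ℝ) : ℂ)) - (ph ξ : ℂ))‖} with hE
    have hsub : {t ∈ Set.Icc T (2 * T) | ε < ‖(1 / K : ℂ) * ∑ k ∈ Finset.range K,
        w k * (Complex.exp (Complex.I * ((ξ * Zv a T (t + hs (xs k) T) : ℝ) : ℂ)) - (ph ξ : ℂ))‖} ⊆
        (fun t => t + hs (x₀ : ℝ) T) ⁻¹' E ∪ Set.Icc (2 * T - 14) (2 * T) := by
      rintro t ⟨⟨ht1, ht2⟩, ht3⟩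
      by_cases h2 : t ≤ 2 * T - 14
      · left
        refine ⟨⟨by linarith, by linarith⟩, ?_⟩
        have h3 : ∀ k : ℕ, t + hs (x₀ : ℝ) T + hs (k * b) T = t + hs (xs k) T := by
          intro k
          simp only [hxs]
          unfold hs
          push_cast
          ring
        simp only [h3]
        exact ht3
      · right
        exact ⟨(not_le.1 h2).le, ht2⟩
    refine (measure_mono hsub).trans ((measure_union_le _ _).trans ?_)
    rw [measure_preimage_add_right, Real.volume_Icc]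
    refine (add_le_add h1 le_rfl).trans ?_
    rw [← ENNReal.ofReal_add (by positivity) (by linarith)]
    apply ENNReal.ofReal_le_ofReal
    have h4 : 28 ≤ σ * T := by
      rw [div_le_iff₀ hσ] at hL28
      have : (L : ℝ) * σ ≤ T * σ := mul_le_mul_of_nonneg_right hTL hσ.le
      linarith
    linarith
  have hgood := hc K hK1 T hT0 (fun k t => Zv a T (t + hs (xs k) T)) hZlaw
    (fun l k => (Fin.cons (fun _ => 1) (fun i y => v i (y + a) - v i y) : Fin (κ + 1) → ℕ → ℝ) l (xs k))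
  refine (measure_mono ?_).trans ((measure_union_le _ _).trans
    ((add_le_add hbad hgood).trans ?_))
  · rintro t ⟨ht, c, hcc⟩
    by_cases hG : Good3 P K xs a S T (Q₂ * Real.sqrt (Real.log L)) e H t
    · right
      refine ⟨ht, ?_, ?_⟩
      · have h1 : ∑ k ∈ Finset.range K, Zv a T (t + hs (xs k) T) ^ 2 ≤ 320 * K / η := by
          calc _ = Real.pi ^ 2 / Real.log a * ∑ k ∈ Finset.range K, dev T a (t + hs (xs k) T) := by
                rw [Finset.mul_sum]
                exact Finset.sum_congr rfl fun k _ => Zv_dev' (by linarith) _ _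
            _ ≤ Real.pi ^ 2 / Real.log a * H := mul_le_mul_of_nonneg_left hG.1 (by positivity)
            _ = 160 * K / η * (Real.log L / Real.log a) := by rw [hH]; field_simp
            _ ≤ 160 * K / η * 2 := by
                apply mul_le_mul_of_nonneg_left _ (by positivity)
                rw [div_le_iff₀ (by linarith)]
                exact hloga
            _ = 320 * K / η := by ring
        refine (count_le _ _ hQ0 h1).trans (le_of_eq ?_)
        rw [hQ2]
        field_simp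
      · refine ⟨(Fin.cons (-(Real.pi * a / Real.sqrt (Real.log a)))
          (fun i => Real.pi / Real.sqrt (Real.log a) * (c i * (Real.log T / (2 * Real.pi)))) :
            Fin (κ + 1) → ℝ), hcc.trans ?_⟩
        have hsub : ((Finset.range K).filter fun k =>
            |ord (NZ t + 1 + (x₀ + k * b)) - ∑ i, c i * v i (x₀ + k * b)| ≤
              ε₁ / 4 * Real.sqrt (Real.log L) / Real.log T ∧
            |ord (NZ t + 1 + (x₀ + k * b + a)) - ∑ i, c i * v i (x₀ + k * b + a)| ≤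
              ε₁ / 4 * Real.sqrt (Real.log L) / Real.log T) ⊆
            ((Finset.range K).filter fun k => |Zv a T (t + hs (xs k) T) -
              ∑ l, (Fin.cons (-(Real.pi * a / Real.sqrt (Real.log a)))
              (fun i => Real.pi / Real.sqrt (Real.log a) * (c i * (Real.log T / (2 * Real.pi)))) :
                Fin (κ + 1) → ℝ) l *
              (Fin.cons (fun _ => 1) (fun i y => v i (y + a) - v i y) :
                Fin (κ + 1) → ℕ → ℝ) l (xs k)| ≤ ε₁) := by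
          intro k hk
          obtain ⟨h1, h2, h3⟩ := Finset.mem_filter.1 hk
          have hm1 : xs k ∈ P := Finset.mem_union_left _ (Finset.mem_image.2 ⟨k, h1, rfl⟩)
          have hm2 : xs k + a ∈ P := Finset.mem_union_right _ (Finset.mem_image.2 ⟨k, h1, rfl⟩)
          refine Finset.mem_filter.2 ⟨h1, ?_⟩
          refine det1 (δ := ε₁ / 4 * Real.sqrt (Real.log L) / Real.log T) (e := e)
            (R := Q₂ * Real.sqrt (Real.log L)) (S := S) hla1 hLT0 ?_ ?_ he0 (by positivity) hRS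
            (hG.2.1 _ hm1) (hG.2.2 _ hm1) (hG.2.1 _ hm2) (hG.2.2 _ hm2) v c h2 h3
          · rw [div_mul_cancel₀ _ hLT0.ne']
            have : ε₁ / 4 * Real.sqrt (Real.log L) ≤ ε₁ / 4 * (2 * r) :=
              mul_le_mul_of_nonneg_left hlogLr (by positivity)
            rw [← hr]
            linarith
          · rw [← hr, he]
            linarith
        exact_mod_cast Finset.card_le_card hsub
    · left
      exact ⟨ht, hG⟩
  · rw [← ENNReal.ofReal_add (by positivity) (by positivity)]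
    apply ENNReal.ofReal_le_ofReal
    have := mul_pos hη hT0
    linarith

end Pool.Agent.R846.VD
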