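import Pool.Agent.R846.VD.B

/-! # Combinatorics of sets of positive density, and averages of sets -/

set_option autoImplicit false

namespace Pool.Agent.R846.VD

open MeasureTheory

/-- decomposition of a range into blocks -/
lemma sum_blocks {M : Type*} [AddCommMonoid M] (f : ℕ → M) (m : ℕ) : ∀ S : ℕ,
    ∑ y ∈ Finset.range (S * m), f y = ∑ p ∈ Finset.range S, ∑ x ∈ Finset.range m, f (p * m + x) := by
  intro S
  induction S with
  | zero => simp
  | succ S ih => rw [Nat.succ_mul, Finset.sum_range_add, ih, Finset.sum_range_succ]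

/-- **two blocks with many common places** -/
theorem pigeon {S m : ℕ} (hm : 0 < m) (J : Finset ℕ) (hJ : J ⊆ Finset.range (S * m)) {ρ : ℝ}
    (hρ : 0 < ρ) (hS : 6 < ρ ^ 2 * S) (hJc : ρ * (S * m) ≤ (J.card : ℝ)) :
    ∃ p q : ℕ, q < S ∧ p + 2 ≤ q ∧ ρ ^ 2 / 2 * m ≤
      (((Finset.range m).filter fun x => p * m + x ∈ J ∧ q * m + x ∈ J).card : ℝ) := by
  classical
  by_contra hcon
  push Not at hcon
  have hmr : (0 : ℝ) < m := by exact_mod_cast hm
  have hSr : (0 : ℝ) < S := by
    by_contra h0
    have h1 : (S : ℝ) = 0 := le_antisymm (not_lt.1 h0) (Nat.cast_nonneg S)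
    rw [h1, mul_zero] at hS
    linarith
  set χ : ℕ → ℝ := fun y => if y ∈ J then 1 else 0 with hχ
  set c : ℕ → ℕ → ℝ := fun p q => ∑ x ∈ Finset.range m, χ (p * m + x) * χ (q * m + x) with hc
  have hχ0 : ∀ y, 0 ≤ χ y := fun y => by simp only [hχ]; split_ifs <;> norm_num
  have hχ1 : ∀ y, χ y ≤ 1 := fun y => by simp only [hχ]; split_ifs <;> norm_num
  have hcf : ∀ p q, c p q =
      (((Finset.range m).filter fun x => p * m + x ∈ J ∧ q * m + x ∈ J).card : ℝ) := by
    intro p q
    simp only [hc, hχ]
    rw [Finset.card_filter]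
    push_cast
    refine Finset.sum_congr rfl fun x _ => ?_
    by_cases h1 : p * m + x ∈ J <;> by_cases h2 : q * m + x ∈ J <;> simp [h1, h2]
  have hcm : ∀ p q, c p q ≤ m := by
    intro p q
    calc c p q ≤ ∑ x ∈ Finset.range m, (1 : ℝ) := Finset.sum_le_sum fun x _ => by
          have := mul_le_mul (hχ1 (p * m + x)) (hχ1 (q * m + x)) (hχ0 _) zero_le_one
          linarith
      _ = m := by simp
  have hcs : ∀ p q, c p q = c q p := fun p q => Finset.sum_congr rfl fun x _ => mul_comm _ _
  have hJ1 : (J.card : ℝ) = ∑ x ∈ Finset.range m, ∑ p ∈ Finset.range S, χ (p * m + x) := by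
    rw [Finset.sum_comm, ← sum_blocks]
    simp only [hχ]
    rw [← Finset.sum_filter, Finset.sum_const, nsmul_eq_mul, mul_one]
    congr 2
    ext y
    rw [Finset.mem_filter]
    exact ⟨fun h => ⟨hJ h, h⟩, fun h => h.2⟩
  have hCS : (J.card : ℝ) ^ 2 ≤ m * ∑ p ∈ Finset.range S, ∑ q ∈ Finset.range S, c p q := by
    rw [hJ1]
    have h1 := sq_sum_le_card_mul_sum_sq (s := Finset.range m)
      (f := fun x => ∑ p ∈ Finset.range S, χ (p * m + x))
    rw [Finset.card_range] at h1
    refine h1.trans (le_of_eq ?_)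
    congr 1
    have e1 : ∀ x, (∑ p ∈ Finset.range S, χ (p * m + x)) ^ 2 =
        ∑ p ∈ Finset.range S, ∑ q ∈ Finset.range S, χ (p * m + x) * χ (q * m + x) := by
      intro x
      rw [sq, Finset.sum_mul_sum]
    simp only [e1, hc]
    rw [Finset.sum_comm]
    refine Finset.sum_congr rfl fun p _ => ?_
    rw [Finset.sum_comm]
  have hup : ∑ p ∈ Finset.range S, ∑ q ∈ Finset.range S, c p q ≤
      S * (3 * m + S * (ρ ^ 2 / 2 * m)) := by
    calc _ ≤ ∑ p ∈ Finset.range S, (3 * m + S * (ρ ^ 2 / 2 * m)) := by
          refine Finset.sum_le_sum fun p hp => ?_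
          have e1 : ∀ q ∈ Finset.range S, c p q ≤
              (if p ≤ q + 1 ∧ q ≤ p + 1 then (m : ℝ) else 0) + ρ ^ 2 / 2 * m := by
            intro q hq
            split_ifs with h1
            · have := hcm p q
              have : 0 ≤ ρ ^ 2 / 2 * m := by positivity
              linarith
            · rw [zero_add]
              rcases Nat.lt_or_ge p q with h2 | h2
              · rw [hcf]
                exact (hcon p q (Finset.mem_range.1 hq) (by omega)).le
              · rw [hcs, hcf]
                exact (hcon q p (Finset.mem_range.1 hp) (by omega)).le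
          refine (Finset.sum_le_sum e1).trans ?_
          rw [Finset.sum_add_distrib, ← Finset.sum_filter, Finset.sum_const, Finset.sum_const,
            nsmul_eq_mul, nsmul_eq_mul, Finset.card_range]
          have h3 : ((Finset.range S).filter fun q => p ≤ q + 1 ∧ q ≤ p + 1) ⊆
              Finset.Icc (p - 1) (p + 1) := by
            intro q hq
            rw [Finset.mem_filter] at hq
            rw [Finset.mem_Icc]
            omega
          have h4 := Finset.card_le_card h3
          rw [Nat.card_Icc] at h4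
          have h5 : (((Finset.range S).filter fun q => p ≤ q + 1 ∧ q ≤ p + 1).card : ℝ) ≤ 3 := by
            have : ((Finset.range S).filter fun q => p ≤ q + 1 ∧ q ≤ p + 1).card ≤ 3 := by omega
            exact_mod_cast this
          have h6 := mul_le_mul_of_nonneg_right h5 hmr.le
          linarith
      _ = _ := by rw [Finset.sum_const, Finset.card_range, nsmul_eq_mul]
  have h1 : (ρ * (S * m)) ^ 2 ≤ (J.card : ℝ) ^ 2 := pow_le_pow_left₀ (by positivity) hJc 2
  have h2 : (ρ * (S * m)) ^ 2 ≤ m * (S * (3 * m + S * (ρ ^ 2 / 2 * m))) :=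
    h1.trans (hCS.trans (mul_le_mul_of_nonneg_left hup hmr.le))
  have h3 : m * (S * (3 * m + S * (ρ ^ 2 / 2 * m))) = (S * m ^ 2 : ℝ) * (3 + S * (ρ ^ 2 / 2)) := by ring
  have h4 : (ρ * (S * m : ℝ)) ^ 2 = (S * m ^ 2 : ℝ) * (ρ ^ 2 * S) := by ring
  rw [h3, h4] at h2
  have h5 := le_of_mul_le_mul_left h2 (by positivity)
  linarith

/-- many good offsets -/
lemma offsets {K b : ℕ} (hK : 0 < K) (G : ℕ → Prop) [DecidablePred G] {c : ℝ}
    (h : 2 * c * (K * b) ≤ (((Finset.range (K * b)).filter G).card : ℝ)) :
    c * b ≤ (((Finset.range b).filter fun o =>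
      c * K ≤ (((Finset.range K).filter fun k => G (k * b + o)).card : ℝ)).card : ℝ) := by
  classical
  have hKr : (0 : ℝ) < K := by exact_mod_cast hK
  have e1 : (((Finset.range (K * b)).filter G).card : ℝ) =
      ∑ o ∈ Finset.range b, (((Finset.range K).filter fun k => G (k * b + o)).card : ℝ) := by
    rw [Finset.card_filter]
    push_cast
    rw [sum_blocks (fun y => if G y then (1 : ℝ) else 0) b K, Finset.sum_comm]
    refine Finset.sum_congr rfl fun o _ => ?_
    rw [Finset.card_filter]
    push_cast
    rfl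
  have e2 : ∑ o ∈ Finset.range b, (((Finset.range K).filter fun k => G (k * b + o)).card : ℝ) ≤
      ∑ o ∈ Finset.range b, ((if c * K ≤ (((Finset.range K).filter fun k => G (k * b + o)).card : ℝ)
        then (K : ℝ) else 0) + max (c * K) 0) := by
    refine Finset.sum_le_sum fun o _ => ?_
    have h0 := le_max_right (c * K) 0
    split_ifs with h1
    · have h2 : (((Finset.range K).filter fun k => G (k * b + o)).card : ℝ) ≤ K := by
        have := Finset.card_filter_le (Finset.range K) (fun k => G (k * b + o))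
        rw [Finset.card_range] at this
        exact_mod_cast this
      linarith
    · have := le_max_left (c * K) 0
      linarith [not_le.1 h1]
  rw [Finset.sum_add_distrib, ← Finset.sum_filter, Finset.sum_const, Finset.sum_const, nsmul_eq_mul,
    nsmul_eq_mul, Finset.card_range] at e2
  rcases le_or_gt c 0 with hc | hc
  · refine le_trans ?_ (Nat.cast_nonneg _)
    exact mul_nonpos_of_nonpos_of_nonneg hc (Nat.cast_nonneg b)
  · rw [max_eq_left (by positivity)] at e2
    rw [e1] at h
    have h3 : (c * b) * K ≤ (((Finset.range b).filter fun o =>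
      c * K ≤ (((Finset.range K).filter fun k => G (k * b + o)).card : ℝ)).card : ℝ) * K := by
      have h4 := h.trans e2
      have e3 : 2 * c * (K * b) = c * b * K + b * (c * K) := by ring
      linarith
    exact le_of_mul_le_mul_right h3 hKr

/-- the points which lie in many of the sets -/
lemma avg_meas {b : ℕ} (hb : 0 < b) (B : ℕ → Set ℝ) {x c : ℝ} (hc : 0 < c) (hx : 0 ≤ x)
    (h : ∀ o < b, volume (B o) ≤ ENNReal.ofReal x) :
    volume {t : ℝ | ∃ P : Finset ℕ, P ⊆ Finset.range b ∧ c * b ≤ (P.card : ℝ) ∧ ∀ o ∈ P, t ∈ B o} ≤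
      ENNReal.ofReal (x / c) := by
  classical
  have hbr : (0 : ℝ) < b := by exact_mod_cast hb
  set f : ℝ → ENNReal := fun t => ∑ o ∈ Finset.range b,
    (toMeasurable volume (B o)).indicator (fun _ => (1 : ENNReal)) t with hf
  have hfm : Measurable f := by
    refine Finset.measurable_fun_sum _ fun o _ => ?_
    exact measurable_const.indicator (measurableSet_toMeasurable _ _)
  have hfi : ∫⁻ t, f t ≤ ENNReal.ofReal (b * x) := by
    rw [hf, lintegral_finsetSum _ fun o _ =>
      measurable_const.indicator (measurableSet_toMeasurable _ _)]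
    calc ∑ o ∈ Finset.range b, ∫⁻ t, (toMeasurable volume (B o)).indicator (fun _ => (1 : ENNReal)) t
        ≤ ∑ o ∈ Finset.range b, ENNReal.ofReal x := by
          refine Finset.sum_le_sum fun o ho => ?_
          rw [lintegral_indicator (measurableSet_toMeasurable _ _), setLIntegral_const, one_mul,
            measure_toMeasurable]
          exact h o (Finset.mem_range.1 ho)
      _ = ENNReal.ofReal (b * x) := by
          rw [Finset.sum_const, Finset.card_range, nsmul_eq_mul, ENNReal.ofReal_mul (Nat.cast_nonneg b),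
            ENNReal.ofReal_natCast]
  have hsub : {t : ℝ | ∃ P : Finset ℕ, P ⊆ Finset.range b ∧ c * b ≤ (P.card : ℝ) ∧ ∀ o ∈ P, t ∈ B o} ⊆
      {t | ENNReal.ofReal (c * b) ≤ f t} := by
    rintro t ⟨P, hP1, hP2, hP3⟩
    show ENNReal.ofReal (c * b) ≤ f t
    calc ENNReal.ofReal (c * b) ≤ ENNReal.ofReal P.card := ENNReal.ofReal_le_ofReal hP2
      _ = ∑ o ∈ P, (1 : ENNReal) := by
          rw [Finset.sum_const, nsmul_eq_mul, mul_one, ENNReal.ofReal_natCast]
      _ = ∑ o ∈ P, (toMeasurable volume (B o)).indicator (fun _ => (1 : ENNReal)) t := by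
          refine Finset.sum_congr rfl fun o ho => ?_
          rw [Set.indicator_of_mem (subset_toMeasurable _ _ (hP3 o ho))]
      _ ≤ f t := Finset.sum_le_sum_of_subset hP1
  have hmar := mul_meas_ge_le_lintegral₀ (μ := volume) hfm.aemeasurable (ENNReal.ofReal (c * b))
  have hcb : 0 < c * b := by positivity
  calc volume _ ≤ volume {t | ENNReal.ofReal (c * b) ≤ f t} := measure_mono hsub
    _ ≤ ENNReal.ofReal (b * x) / ENNReal.ofReal (c * b) := by
        rw [ENNReal.le_div_iff_mul_le (Or.inl (by simpa using hcb)) (Or.inl ENNReal.ofReal_ne_top),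
          mul_comm]
        exact hmar.trans hfi
    _ = ENNReal.ofReal (x / c) := by
        rw [← ENNReal.ofReal_div_of_pos hcb]
        congr 1
        field_simp

end Pool.Agent.R846.VD
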