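import Pool.Agent.R846.VD.F
import Pool.Agent.R846.VS.I
import Pool.Agent.R846.VS.J
import Mathlib.LinearAlgebra.Matrix.Dual
import Mathlib.LinearAlgebra.Dual.Lemmas

/-! # The density theorem for the ordinates up to `N` -/

set_option autoImplicit false

open Filter Topology MeasureTheory Set

namespace Pool.Agent.R846.VD

open SG (ord NZ)
open Pool.Agent.R846.UL (cn cn_eq cn_mono)
open Pool.Agent.R846.VS (palm_unif)

/-- one dyadic block -/
theorem blkd (κ : ℕ) {ρ : ℝ} (hρ : 0 < ρ) : ∃ δ : ℝ, 0 < δ ∧ ∀ ε : ℝ, 0 < ε → ε ≤ 1 → ∃ L₀ : ℕ,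
    ∀ L : ℕ, L₀ ≤ L →
    ∀ T : ℝ, 1 ≤ T → (L : ℝ) * Real.log L ≤ 2 * Real.log T → ∀ v : Fin κ → ℕ → ℝ,
    ∀ (E : ℕ → Prop) [DecidablePred E], (∀ n, E n → ∃ c : Fin κ → ℝ, ρ * L ≤
      (((Finset.range (L + 1)).filter fun j => |ord (n + j) - ∑ i, c i * v i j| ≤
        δ * Real.sqrt (Real.log L) / Real.log (ord n)).card : ℝ)) →
    (((Finset.Ioc (NZ T) (NZ (2 * T))).filter E).card : ℝ) ≤ ε * (T * Real.log T / (2 * Real.pi)) := by
  classical
  obtain ⟨δ, hδ, hdens⟩ := dens_main κ (show 0 < ρ / 2 by positivity)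
  refine ⟨δ / 2, by positivity, fun ε hε hε1 => ?_⟩
  obtain ⟨S', T1, hT1, hpalm⟩ := palm_unif hε hε1
  obtain ⟨L1, hL1⟩ := hdens (ε / (8 * (S' + 1))) (by positivity)
  obtain ⟨L2, hL2⟩ := (Pool.Agent.Y743.CL.bigT 2 (by norm_num) T1).exists_forall_of_atTop
  obtain ⟨L3, hL3⟩ := exists_nat_ge (2 * S' / ρ)
  refine ⟨2 * L1 + L2 + L3 + 2 * S' + 8, fun L hL T hT hLT v E _ hE => ?_⟩
  have hTT1 := hL2 L (by omega) T hT hLT
  obtain ⟨L', hL'⟩ : ∃ L' : ℕ, L' = L - S' := ⟨_, rfl⟩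
  have h1 : L1 ≤ L' := by omega
  have h2 : L' + S' = L := by omega
  have h3 : 4 ≤ L' := by omega
  have h4 : L ≤ L' ^ 2 := by
    have : L ≤ 2 * L' := by omega
    nlinarith
  have hL'r : (4 : ℝ) ≤ L' := by exact_mod_cast h3
  have h5r : (L' : ℝ) ≤ L := by exact_mod_cast (by omega : L' ≤ L)
  have hlogL : 0 < Real.log L := Real.log_pos (by linarith)
  have hlogL' : 0 < Real.log L' := Real.log_pos (by linarith)
  have h6 : (L' : ℝ) * Real.log L' ≤ 2 * Real.log T := by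
    have a1 : Real.log L' ≤ Real.log L := Real.log_le_log (by linarith) (by linarith)
    exact (mul_le_mul h5r a1 hlogL'.le (by linarith)).trans hLT
  have h7 : Real.sqrt (Real.log L) ≤ 2 * Real.sqrt (Real.log L') := by
    have a1 : Real.log L ≤ 2 * Real.log L' := by
      have a2 : (L : ℝ) ≤ (L' : ℝ) ^ 2 := by exact_mod_cast h4
      calc Real.log L ≤ Real.log ((L' : ℝ) ^ 2) := Real.log_le_log (by linarith) a2
        _ = 2 * Real.log L' := by rw [Real.log_pow]; norm_num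
    calc Real.sqrt (Real.log L) ≤ Real.sqrt (2 ^ 2 * Real.log L') := Real.sqrt_le_sqrt (by linarith)
      _ = 2 * Real.sqrt (Real.log L') := by rw [Real.sqrt_mul (by norm_num), Real.sqrt_sq (by norm_num)]
  have hT10 : 10 ≤ T := hT1.trans hTT1
  have hlogT : 0 < Real.log T := Real.log_pos (by linarith)
  refine hpalm T hTT1 (fun s => {t | ∃ c : Fin κ → ℝ, ρ / 2 * L' ≤
      (((Finset.range (L' + 1)).filter fun j => |ord (NZ t + 1 + j) - ∑ i, c i * v i (s + j)| ≤
        δ * Real.sqrt (Real.log L') / Real.log T).card : ℝ)}) E ?_ ?_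
  · intro s _
    refine le_trans (measure_mono ?_) (hL1 L' h1 T hT h6 (fun i j => v i (s + j)))
    rintro t ⟨h8, h9⟩
    exact ⟨h9, h8⟩
  · intro n hn hnT s hs t _ _ hts
    obtain ⟨c, hc⟩ := hE n hn
    refine ⟨c, ?_⟩
    have h9 : T < ord n := by
      by_contra hcon
      push Not at hcon
      have := (SG.ord_le_iff (by omega : 1 ≤ n) _).mp hcon
      omega
    have h10 : Real.log T ≤ Real.log (ord n) := Real.log_le_log (by linarith) h9.le
    have h11 : δ / 2 * Real.sqrt (Real.log L) / Real.log (ord n) ≤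
        δ * Real.sqrt (Real.log L') / Real.log T := by
      calc δ / 2 * Real.sqrt (Real.log L) / Real.log (ord n)
          ≤ (δ / 2 * (2 * Real.sqrt (Real.log L'))) / Real.log (ord n) := by
            apply div_le_div_of_nonneg_right _ (by linarith)
            exact mul_le_mul_of_nonneg_left h7 (by positivity)
        _ ≤ (δ / 2 * (2 * Real.sqrt (Real.log L'))) / Real.log T :=
            div_le_div_of_nonneg_left (by positivity) hlogT h10
        _ = _ := by ring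
    set J := (Finset.range (L + 1)).filter fun j => |ord (n + j) - ∑ i, c i * v i j| ≤
        δ / 2 * Real.sqrt (Real.log L) / Real.log (ord n) with hJ
    set J' := (Finset.range (L' + 1)).filter fun j => |ord (NZ t + 1 + j) - ∑ i, c i * v i (s + j)| ≤
        δ * Real.sqrt (Real.log L') / Real.log T with hJ'
    have hsub : J ⊆ J'.image (fun j => s + j) ∪ (Finset.range s ∪ Finset.Ioc (s + L') L) := by
      intro j hj
      obtain ⟨g1, g2⟩ := Finset.mem_filter.1 hj
      have g3 := Finset.mem_range.1 g1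
      by_cases g4 : j < s
      · exact Finset.mem_union_right _ (Finset.mem_union_left _ (Finset.mem_range.2 g4))
      by_cases g5 : s + L' < j
      · exact Finset.mem_union_right _ (Finset.mem_union_right _ (Finset.mem_Ioc.2 ⟨g5, by omega⟩))
      refine Finset.mem_union_left _ (Finset.mem_image.2 ⟨j - s, Finset.mem_filter.2
        ⟨Finset.mem_range.2 (by omega), ?_⟩, by omega⟩)
      have e1 : NZ t + 1 + (j - s) = n + j := by omega
      have e2 : s + (j - s) = j := by omega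
      rw [e1, e2]
      exact g2.trans h11
    have hcard : (J.card : ℝ) ≤ J'.card + S' := by
      have g1 := (Finset.card_le_card hsub).trans (Finset.card_union_le _ _)
      have g2 := Finset.card_union_le (Finset.range s) (Finset.Ioc (s + L') L)
      rw [Finset.card_range, Nat.card_Ioc] at g2
      have g3 : (J'.image (fun j => s + j)).card ≤ J'.card := Finset.card_image_le
      have g4 : J.card ≤ J'.card + S' := by omega
      exact_mod_cast g4
    have hL3' : S' ≤ ρ / 2 * (L : ℝ) := by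
      have g1 : 2 * S' / ρ ≤ (L : ℝ) := hL3.trans (by exact_mod_cast (by omega : L3 ≤ L))
      rw [div_le_iff₀ hρ] at g1
      linarith
    have : ρ / 2 * (L' : ℝ) ≤ ρ / 2 * L := mul_le_mul_of_nonneg_left h5r (by positivity)
    linarith

/-- **for almost all `n` no sequence of a given space agrees with the run of ordinates at a positive
proportion of the places** -/
theorem dens_ord (κ : ℕ) {ρ : ℝ} (hρ : 0 < ρ) : ∃ δ : ℝ, 0 < δ ∧ ∀ η : ℝ, 0 < η → ∃ L₀ : ℕ, ∀ L : ℕ,
    L₀ ≤ L → ∀ N : ℕ, 1 ≤ N → (L : ℝ) * Real.log L ≤ Real.log N → ∀ v : Fin κ → ℕ → ℝ,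
    cn N {n | ∃ c : Fin κ → ℝ, ρ * L ≤
      (((Finset.range (L + 1)).filter fun j => |ord (n + j) - ∑ i, c i * v i j| ≤
        δ * Real.sqrt (Real.log L) / Real.log (ord n)).card : ℝ)} ≤ η * N := by
  classical
  obtain ⟨δ, hδ, hblk⟩ := blkd κ hρ
  refine ⟨δ, hδ, fun η hη => ?_⟩
  obtain ⟨e, he⟩ : ∃ e : ℝ, e = min (η / 2) 1 := ⟨_, rfl⟩
  have he0 : 0 < e := by rw [he]; exact lt_min (by positivity) one_pos
  have he1 : e ≤ 1 := by rw [he]; exact min_le_right _ _
  have heη : e ≤ η / 2 := by rw [he]; exact min_le_left _ _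
  obtain ⟨N₀, hN₀, hasm⟩ := Pool.Agent.R320.CL.asm e he0 he1
  obtain ⟨L1, hL1⟩ := hblk e he0 he1
  refine ⟨max L1 (max N₀ 3), fun L hL N hN hLN v => ?_⟩
  have h1 : L1 ≤ L := (le_max_left _ _).trans hL
  have h2 : N₀ ≤ L := ((le_max_left _ _).trans (le_max_right _ _)).trans hL
  have h3 : 3 ≤ L := ((le_max_right _ _).trans (le_max_right _ _)).trans hL
  have h3r : (3 : ℝ) ≤ L := by exact_mod_cast h3
  have hlogL : 1 ≤ Real.log L := by
    rw [Real.le_log_iff_exp_le (by linarith)]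
    linarith [Real.exp_one_lt_d9]
  have hNpos : (0 : ℝ) < N := by exact_mod_cast hN
  have hLN' : (L : ℝ) ≤ N := by
    have a1 := Real.log_le_sub_one_of_pos hNpos
    have a2 : (L : ℝ) * 1 ≤ L * Real.log L := mul_le_mul_of_nonneg_left hlogL (by linarith)
    linarith
  have hNN : N₀ ≤ N := by
    have : L ≤ N := by exact_mod_cast hLN'
    omega
  have g1 := hasm N hNN (fun n => ∃ c : Fin κ → ℝ, ρ * L ≤
      (((Finset.range (L + 1)).filter fun j => |ord (n + j) - ∑ i, c i * v i j| ≤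
        δ * Real.sqrt (Real.log L) / Real.log (ord n)).card : ℝ)) e he0.le (by linarith)
    (fun T hT hlog => by
      rw [mul_comm (T * Real.log T / (2 * Real.pi)) e]
      exact hL1 L h1 T hT (hLN.trans hlog) v _ (fun n hn => hn))
  rw [cn_eq]
  refine g1.trans (mul_le_mul_of_nonneg_right (by linarith) hNpos.le)

/-- a spanning family with `k` members -/
lemma span_fam (k L : ℕ) (V : Submodule ℝ (Fin (L + 1) → ℝ)) (hV : Module.finrank ℝ V ≤ k) :
    ∃ v : Fin k → ℕ → ℝ, ∀ w ∈ V, ∃ c : Fin k → ℝ, ∀ (j : ℕ) (hj : j < L + 1),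
      w ⟨j, hj⟩ = ∑ i, c i * v i j := by
  classical
  set d := Module.finrank ℝ V with hd
  let b := Module.finBasis ℝ V
  refine ⟨fun i j => if h : i.1 < d then (if h' : j < L + 1 then
    (b ⟨i.1, h⟩ : Fin (L + 1) → ℝ) ⟨j, h'⟩ else 0) else 0, fun w hw => ?_⟩
  refine ⟨fun i => if h : i.1 < d then b.repr ⟨w, hw⟩ ⟨i.1, h⟩ else 0, fun j hj => ?_⟩
  have h4 := b.sum_repr ⟨w, hw⟩
  have h5 : ∑ i, b.repr ⟨w, hw⟩ i • (b i : Fin (L + 1) → ℝ) = w := by
    have h7 := congrArg V.subtype h4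
    rw [map_sum] at h7
    simp only [map_smul, Submodule.subtype_apply] at h7
    exact h7
  have h6 := congrFun h5 ⟨j, hj⟩
  rw [Finset.sum_apply] at h6
  rw [← h6]
  set g : ℕ → ℝ := fun i => if h : i < d then b.repr ⟨w, hw⟩ ⟨i, h⟩ *
    (b ⟨i, h⟩ : Fin (L + 1) → ℝ) ⟨j, hj⟩ else 0 with hg
  have e1 : ∑ i : Fin k, (if h : i.1 < d then b.repr ⟨w, hw⟩ ⟨i.1, h⟩ else 0) *
      (if h : i.1 < d then (if h' : j < L + 1 then
        (b ⟨i.1, h⟩ : Fin (L + 1) → ℝ) ⟨j, h'⟩ else 0) else 0) = ∑ i : Fin k, g i := by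
    refine Finset.sum_congr rfl fun i _ => ?_
    simp only [hg]
    by_cases h : i.1 < d
    · simp only [dif_pos h, dif_pos hj]
    · simp only [dif_neg h, mul_zero]
  rw [e1, Fin.sum_univ_eq_sum_range g k]
  have e2 : ∑ i ∈ Finset.range k, g i = ∑ i ∈ Finset.range d, g i := by
    symm
    refine Finset.sum_subset (Finset.range_subset_range.2 hV) fun i _ hi => ?_
    rw [Finset.mem_range] at hi
    simp only [hg, dif_neg hi]
  rw [e2, ← Fin.sum_univ_eq_sum_range g d]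
  refine Finset.sum_congr rfl fun i _ => ?_
  have hi : (i : ℕ) < d := i.isLt
  simp only [hg]
  rw [dif_pos hi]
  rfl

/-- the density theorem for subspaces -/
theorem dens_sub (k : ℕ) {ρ : ℝ} (hρ : 0 < ρ) : ∃ δ : ℝ, 0 < δ ∧ ∀ η : ℝ, 0 < η → ∃ L₀ : ℕ, ∀ L : ℕ,
    L₀ ≤ L → ∀ N : ℕ, 1 ≤ N → (L : ℝ) * Real.log L ≤ Real.log N →
    ∀ V : Submodule ℝ (Fin (L + 1) → ℝ), Module.finrank ℝ V ≤ k →
    cn N {n | ∃ w ∈ V, ρ * L ≤ (({j : Fin (L + 1) | |ord (n + j) - w j| ≤
        δ * Real.sqrt (Real.log L) / Real.log (ord n)} : Set (Fin (L + 1))).ncard : ℝ)} ≤ η * N := by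
  classical
  obtain ⟨δ, hδ, h⟩ := dens_ord k hρ
  refine ⟨δ, hδ, fun η hη => ?_⟩
  obtain ⟨L0, hL0⟩ := h η hη
  refine ⟨L0, fun L hL N hN hLN V hV => ?_⟩
  obtain ⟨v, hv⟩ := span_fam k L V hV
  refine le_trans (cn_mono fun n _ _ hn => ?_) (hL0 L hL N hN hLN v)
  obtain ⟨w, hw, hwj⟩ := hn
  obtain ⟨c, hc⟩ := hv w hw
  refine ⟨c, hwj.trans ?_⟩
  rw [Set.ncard_eq_toFinset_card']
  have h1 : (({j : Fin (L + 1) | |ord (n + j) - w j| ≤
        δ * Real.sqrt (Real.log L) / Real.log (ord n)} : Set (Fin (L + 1))).toFinset).card ≤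
      ((Finset.range (L + 1)).filter fun j => |ord (n + j) - ∑ i, c i * v i j| ≤
        δ * Real.sqrt (Real.log L) / Real.log (ord n)).card := by
    refine Finset.card_le_card_of_injOn (fun j => (j : ℕ)) ?_ (fun a _ b _ h => Fin.ext h)
    intro j hj
    rw [Set.coe_toFinset] at hj
    simp only [Finset.coe_filter, Finset.mem_range, Set.mem_ofPred_eq]
    refine ⟨j.isLt, ?_⟩
    rw [← hc j.1 j.isLt]
    exact hj
  exact_mod_cast h1

end Pool.Agent.R846.VD
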